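import Mathlib

set_option autoImplicit false

namespace Pool.Agent.MP_39baa9_co

/-- `D` is dominating: every vertex outside `D` has a neighbour in `D`. -/
def IsDominating {V : Type} (G : SimpleGraph V) (D : Finset V) : Prop :=
  ∀ v, v ∉ D → ∃ d ∈ D, G.Adj v d

/-- The domination number: the least size of a dominating set. -/
noncomputable def dominationNumber {V : Type} (G : SimpleGraph V) : ℕ :=
  sInf {k | ∃ D : Finset V, IsDominating G D ∧ D.card = k}

/-- `k`-edge-critical: domination number `k`, and adding any missing edge lowers it. -/
def EdgeCritical {V : Type} (k : ℕ) (G : SimpleGraph V) : Prop :=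
  dominationNumber G = k ∧
    ∀ u v, u ≠ v → ¬ G.Adj u v → dominationNumber (G ⊔ SimpleGraph.edge u v) < k

/-- The number of vertices of degree at most `r`. -/
noncomputable def lowDegreeCount {V : Type} (G : SimpleGraph V) (r : ℕ) : ℕ :=
  {v | (G.neighborSet v).ncard ≤ r}.ncard

end Pool.Agent.MP_39baa9_co
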